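import Pool.Agent.H140.RS.Comb

open Finset

namespace Pool.Agent.H140.RS

/-- The descent set of a word `w = w₁ w₂ … wₙ` : the positions `k ∈ [n-1]` with `w_k > w_{k+1}`
(positions are counted from `1`, so `w_k` is the list entry with index `k - 1`). -/
def DES (w : List ℕ) : Finset ℕ :=
  (Finset.Icc 1 (w.length - 1)).filter (fun k => w.getD k 0 < w.getD (k - 1) 0)

/-- `B` is the list of the blocks of a set partition of `[n] = {1, …, n}`, every block written in
increasing order, and the blocks ordered by increasing smallest element (`headI` of a nonempty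
increasing list is its first entry, i.e. its smallest element). -/
structure IsBlockList (n : ℕ) (B : List (List ℕ)) : Prop where
  nonempty : ∀ b ∈ B, b ≠ []
  increasing : ∀ b ∈ B, b.Pairwise (· < ·)
  ordered : B.Pairwise (fun b c => b.headI < c.headI)
  partition : B.flatten.Perm (List.range' 1 n)

open Classical in
/-- The set of run-sorted permutations of `[n]`, in one-line notation. -/
noncomputable def RSP (n : ℕ) : Finset (List ℕ) :=
  (List.range' 1 n).permutations.toFinset.filter (fun w => ∃ B, IsBlockList n B ∧ B.flatten = w)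

theorem mem_RSP {n : ℕ} {w : List ℕ} : w ∈ RSP n ↔ ∃ B, IsBlockList n B ∧ B.flatten = w := by
  classical
  unfold RSP
  rw [Finset.mem_filter, List.mem_toFinset, List.mem_permutations]
  constructor
  · exact fun h => h.2
  · rintro ⟨B, hB, rfl⟩
    exact ⟨hB.partition, B, hB, rfl⟩

variable {K : Type*} [CommSemiring K]

theorem prod_DES (x : ℕ → K) : ∀ (w : List ℕ) (a p : ℕ),
    ∏ i ∈ range w.length, (if (a :: w).getD (i + 1) 0 < (a :: w).getD i 0 then x (p + i) else 1)
      = wt x p a w := by
  intro w
  induction w with
  | nil => intro a p; simp [wt]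
  | cons d w ih =>
    intro a p
    rw [List.length_cons, Finset.prod_range_succ', wt, mul_comm, ← ih d (p+1)]
    congr 1
    apply Finset.prod_congr rfl
    intro i _
    simp only [List.getD_cons_succ]
    have : p + (i + 1) = p + 1 + i := by ring
    rw [this]

theorem prod_DES' (x : ℕ → K) (a : ℕ) (w : List ℕ) :
    ∏ k ∈ DES (a :: w), x k = wt x 1 a w := by
  rw [← prod_DES, DES, Finset.prod_filter]
  have : Finset.Icc 1 ((a :: w).length - 1) = (range w.length).map (addLeftEmbedding 1) := by
    ext k
    simp only [List.length_cons, Nat.add_sub_cancel, Finset.mem_Icc, Finset.mem_map,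
      Finset.mem_range, addLeftEmbedding_apply]
    constructor
    · rintro ⟨h1, h2⟩
      exact ⟨k - 1, by omega, by omega⟩
    · rintro ⟨j, h1, rfl⟩
      omega
  rw [this, Finset.prod_map]
  apply Finset.prod_congr rfl
  intro i _
  simp only [addLeftEmbedding_apply]
  rw [show 1 + i - 1 = i by omega, add_comm 1 i]

/-- from blocks to `Good` -/
theorem good_of_blocks : ∀ (B : List (List ℕ)) (a : ℕ) (b : List ℕ),
    (∀ c ∈ B, c ≠ []) → (∀ c ∈ B, c.Pairwise (· < ·)) →
    (B.Pairwise (fun b c => b.headI < c.headI)) → (a :: b).Pairwise (· < ·) →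
    Good a (b ++ B.flatten) := by
  intro B
  induction B with
  | nil =>
    intro a b _ _ _ hb
    induction b generalizing a with
    | nil => simp [Good]
    | cons d b ihb =>
      rw [List.pairwise_cons] at hb
      exact ⟨Or.inl (hb.1 d (by simp)), ihb d hb.2⟩
  | cons c B ih =>
    intro a b h1 h2 h3 hb
    induction b generalizing a with
    | nil =>
      have hc := h1 c (by simp)
      obtain ⟨d, c', rfl⟩ := List.exists_cons_of_ne_nil hc
      have hcs := h2 (d :: c') (by simp)
      rw [List.pairwise_cons] at h3
      have hrec := ih d c' (fun e he => h1 e (by simp [he])) (fun e he => h2 e (by simp [he]))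
        h3.2 hcs
      simp only [List.nil_append, List.flatten_cons, List.cons_append]
      refine ⟨Or.inr ?_, hrec⟩
      intro e he
      rw [List.mem_append] at he
      rcases he with he | he
      · exact (List.pairwise_cons.mp hcs).1 e he
      · rw [List.mem_flatten] at he
        obtain ⟨u, hu, heu⟩ := he
        have h4 := h3.1 u hu
        simp only [List.headI_cons] at h4
        have h5 := h1 u (by simp [hu])
        have h6 := h2 u (by simp [hu])
        obtain ⟨f, u', rfl⟩ := List.exists_cons_of_ne_nil h5
        simp only [List.headI_cons] at h4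
        rcases List.mem_cons.mp heu with rfl | h7
        · exact h4
        · exact h4.trans ((List.pairwise_cons.mp h6).1 e h7)
    | cons d b ihb =>
      rw [List.pairwise_cons] at hb
      exact ⟨Or.inl (hb.1 d (by simp)), ihb d hb.2⟩

/-- from `Good` to blocks -/
theorem blocks_of_good : ∀ (w : List ℕ) (a : ℕ), Good a w → (∀ e ∈ w, e ≠ a) → w.Nodup →
    ∃ (b : List ℕ) (B : List (List ℕ)), (a :: b) ++ B.flatten = a :: w ∧
      (a :: b).Pairwise (· < ·) ∧ (∀ c ∈ B, c ≠ []) ∧ (∀ c ∈ B, c.Pairwise (· < ·)) ∧
      (B.Pairwise (fun b c => b.headI < c.headI)) := by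
  intro w
  induction w with
  | nil => intro a _ _ _; exact ⟨[], [], by simp⟩
  | cons d w ih =>
    intro a hg ha hn
    obtain ⟨hg1, hg2⟩ := hg
    rw [List.nodup_cons] at hn
    obtain ⟨b, B, h1, h2, h3, h4, h5⟩ := ih d hg2 (fun e he h => hn.1 (h ▸ he)) hn.2
    by_cases had : a < d
    · refine ⟨d :: b, B, ?_, ?_, h3, h4, h5⟩
      · rw [List.cons_append, h1]
      · rw [List.pairwise_cons]
        refine ⟨?_, h2⟩
        intro e he
        rcases List.mem_cons.mp he with rfl | h7
        · exact had
        · exact had.trans ((List.pairwise_cons.mp h2).1 e h7)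
    · have hmin : ∀ e ∈ w, d < e := by
        rcases hg1 with h | h
        · exact absurd h had
        · exact h
      refine ⟨[], (d :: b) :: B, ?_, by simp, ?_, ?_, ?_⟩
      · rw [List.flatten_cons, h1]; rfl
      · intro c hc
        rcases List.mem_cons.mp hc with rfl | h
        · simp
        · exact h3 c h
      · intro c hc
        rcases List.mem_cons.mp hc with rfl | h
        · exact h2
        · exact h4 c h
      · rw [List.pairwise_cons]
        refine ⟨?_, h5⟩
        intro c hc
        obtain ⟨f, u', rfl⟩ := List.exists_cons_of_ne_nil (h3 c hc)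
        simp only [List.headI_cons]
        apply hmin
        have h8 : b ++ B.flatten = w := by
          have := h1
          rw [List.cons_append] at this
          exact (List.cons.inj this).2
        rw [← h8, List.mem_append]
        right
        rw [List.mem_flatten]
        exact ⟨_, hc, by simp⟩

theorem mem_RSP_iff {n : ℕ} {w : List ℕ} : w ∈ RSP (n + 1) ↔
    ∃ w', w = 1 :: w' ∧ w' ∈ arr (Finset.Icc 2 (n+1)) ∧ Good 1 w' := by
  rw [mem_RSP]
  constructor
  · rintro ⟨B, hB, rfl⟩
    have hne : B ≠ [] := by
      rintro rfl
      have := hB.partition.length_eq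
      simp at this
    obtain ⟨b, B', rfl⟩ := List.exists_cons_of_ne_nil hne
    obtain ⟨a, b', rfl⟩ := List.exists_cons_of_ne_nil (hB.nonempty b (by simp))
    have hperm := hB.partition
    have hord := List.pairwise_cons.mp hB.ordered
    have hg := good_of_blocks B' a b' (fun e he => hB.nonempty e (by simp [he]))
      (fun e he => hB.increasing e (by simp [he])) hord.2 (hB.increasing _ (by simp))
    rw [List.flatten_cons, List.cons_append] at hperm ⊢
    have hnod : (a :: (b' ++ B'.flatten)).Nodup := hperm.nodup_iff.mpr List.nodup_range'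
    have hmem : ∀ e, e ∈ (a :: (b' ++ B'.flatten)) ↔ 1 ≤ e ∧ e < 1 + (n + 1) := by
      intro e
      rw [hperm.mem_iff, List.mem_range'_1]
    have hall : ∀ e ∈ b' ++ B'.flatten, a < e := by
      intro e he
      rw [List.mem_append] at he
      rcases he with he | he
      · exact (List.pairwise_cons.mp (hB.increasing _ (List.mem_cons_self))).1 e he
      · rw [List.mem_flatten] at he
        obtain ⟨u, hu, heu⟩ := he
        have h4 := hord.1 u hu
        have h5 := hB.nonempty u (by simp [hu])
        have h6 := hB.increasing u (by simp [hu])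
        obtain ⟨f, u', rfl⟩ := List.exists_cons_of_ne_nil h5
        simp only [List.headI_cons] at h4
        rcases List.mem_cons.mp heu with rfl | h7
        · exact h4
        · exact h4.trans ((List.pairwise_cons.mp h6).1 e h7)
    have ha1 : a = 1 := by
      have h1 := (hmem 1).mpr (by omega)
      have h2 := (hmem a).mp (by simp)
      rcases List.mem_cons.mp h1 with h | h
      · exact h.symm
      · have := hall 1 h
        omega
    subst ha1
    refine ⟨b' ++ B'.flatten, rfl, ?_, hg⟩
    rw [mem_arr]
    refine ⟨(List.nodup_cons.mp hnod).2, ?_⟩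
    ext e
    rw [List.mem_toFinset, Finset.mem_Icc]
    constructor
    · intro he
      have h1 := hall e he
      have h2 := (hmem e).mp (List.mem_cons_of_mem _ he)
      omega
    · rintro ⟨h1, h2⟩
      have h3 := (hmem e).mpr (by omega)
      rcases List.mem_cons.mp h3 with h | h
      · omega
      · exact h
  · rintro ⟨w', rfl, hw, hg⟩
    rw [mem_arr] at hw
    have hmem : ∀ e, e ∈ w' ↔ 2 ≤ e ∧ e ≤ n + 1 := by
      intro e
      rw [← List.mem_toFinset, hw.2, Finset.mem_Icc]
    obtain ⟨b, B, h1, h2, h3, h4, h5⟩ := blocks_of_good w' 1 hg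
      (fun e he => by have := (hmem e).mp he; omega) hw.1
    refine ⟨(1 :: b) :: B, ⟨?_, ?_, ?_, ?_⟩, ?_⟩
    · intro c hc
      rcases List.mem_cons.mp hc with rfl | h
      · simp
      · exact h3 c h
    · intro c hc
      rcases List.mem_cons.mp hc with rfl | h
      · exact h2
      · exact h4 c h
    · rw [List.pairwise_cons]
      refine ⟨?_, h5⟩
      intro c hc
      obtain ⟨f, u', rfl⟩ := List.exists_cons_of_ne_nil (h3 c hc)
      simp only [List.headI_cons]
      have h8 : b ++ B.flatten = w' := by
        have := h1
        rw [List.cons_append] at this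
        exact (List.cons.inj this).2
      have : f ∈ w' := by
        rw [← h8, List.mem_append]
        right
        rw [List.mem_flatten]
        exact ⟨_, hc, by simp⟩
      have := (hmem f).mp this
      omega
    · rw [List.flatten_cons, h1]
      apply List.perm_of_nodup_nodup_toFinset_eq
      · rw [List.nodup_cons]
        exact ⟨fun h => by have := (hmem 1).mp h; omega, hw.1⟩
      · exact List.nodup_range'
      · ext e
        rw [List.mem_toFinset, List.mem_toFinset, List.mem_cons, hmem, List.mem_range'_1]
        omega
    · rw [List.flatten_cons, h1]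

theorem sum_RSP (x : ℕ → K) (n : ℕ) :
    ∑ w ∈ RSP (n + 1), ∏ k ∈ DES w, x k = W x n 0 1 := by
  classical
  have h := sum_good x n (Finset.Icc 2 (n+1)) 1 1 (by simp) (by simp)
  have h0 : #{e ∈ Finset.Icc 2 (n+1) | e < 1} = 0 := by
    rw [Finset.card_eq_zero, Finset.filter_eq_empty_iff]
    intro e he
    rw [Finset.mem_Icc] at he
    omega
  rw [h0, ← Finset.sum_filter] at h
  rw [← h]
  have hset : RSP (n+1) = ((arr (Finset.Icc 2 (n+1))).filter (Good 1)).image (List.cons 1) := by
    ext w
    rw [mem_RSP_iff, Finset.mem_image]
    constructor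
    · rintro ⟨w', rfl, h1, h2⟩
      exact ⟨w', by rw [Finset.mem_filter]; exact ⟨h1, h2⟩, rfl⟩
    · rintro ⟨w', h1, rfl⟩
      rw [Finset.mem_filter] at h1
      exact ⟨w', rfl, h1.1, h1.2⟩
  rw [hset, Finset.sum_image]
  · apply Finset.sum_congr rfl
    intro w _
    exact prod_DES' x 1 w
  · intro a _ b _ hab
    exact (List.cons.inj hab).2

end Pool.Agent.H140.RS
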