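import Mathlib

open Finset

namespace Pool.Agent.H140.RS

/-- all arrangements of a finite set -/
noncomputable def arr (R : Finset ℕ) : Finset (List ℕ) := R.toList.permutations.toFinset

theorem mem_arr {R : Finset ℕ} {w : List ℕ} : w ∈ arr R ↔ w.Nodup ∧ w.toFinset = R := by
  unfold arr
  rw [List.mem_toFinset, List.mem_permutations]
  constructor
  · intro h
    refine ⟨h.nodup_iff.mpr R.nodup_toList, ?_⟩
    rw [List.toFinset_eq_of_perm _ _ h, Finset.toList_toFinset]
  · rintro ⟨h1, h2⟩
    subst h2
    exact List.perm_of_nodup_nodup_toFinset_eq h1 (Finset.nodup_toList _) (by simp)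

/-- the list `a :: w` continues a run-sorted arrangement -/
def Good : ℕ → List ℕ → Prop
  | _, [] => True
  | a, d :: w => (a < d ∨ ∀ e ∈ w, d < e) ∧ Good d w

variable {K : Type*} [CommSemiring K]

/-- product of the weights of the descents -/
def wt (x : ℕ → K) : ℕ → ℕ → List ℕ → K
  | _, _, [] => 1
  | p, a, d :: w => (if d < a then x p else 1) * wt x (p+1) d w

/-- the recursion -/
def W (x : ℕ → K) : ℕ → ℕ → ℕ → K
  | 0, _, _ => 1
  | r+1, s, p => ∑ i ∈ Ico s (r+1), W x r i (p+1) +
      (if 1 ≤ s then x p * W x r 0 (p+1) else 0)

theorem rank_sum (F : ℕ → K) (R : Finset ℕ) :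
    ∑ d ∈ R, F (#{e ∈ R | e < d}) = ∑ j ∈ range R.card, F j := by
  induction R using Finset.induction_on_max with
  | empty => simp
  | insert m R hm ih =>
    have hmR : m ∉ R := fun h => lt_irrefl _ (hm m h)
    rw [Finset.sum_insert hmR, Finset.card_insert_of_notMem hmR, Finset.sum_range_succ, add_comm]
    congr 1
    · rw [← ih]
      apply Finset.sum_congr rfl
      intro d hd
      congr 2
      rw [Finset.filter_insert, if_neg (not_lt.mpr (hm d hd).le)]
    · congr 1
      rw [Finset.filter_insert, if_neg (lt_irrefl m)]
      rw [Finset.filter_true_of_mem hm]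

theorem arr_empty : arr ∅ = {[]} := by
  ext w
  rw [mem_arr, Finset.mem_singleton]
  constructor
  · rintro ⟨_, h⟩
    exact List.toFinset_eq_empty_iff _ |>.mp h
  · rintro rfl
    simp

theorem sum_arr (R : Finset ℕ) (hR : R.Nonempty) (f : List ℕ → K) :
    ∑ w ∈ arr R, f w = ∑ d ∈ R, ∑ w ∈ arr (R.erase d), f (d :: w) := by
  have h1 : arr R = R.biUnion (fun d => (arr (R.erase d)).image (List.cons d)) := by
    ext w
    simp only [Finset.mem_biUnion, Finset.mem_image, mem_arr]
    constructor
    · rintro ⟨h1, h2⟩
      cases w with
      | nil =>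
        exfalso
        simp at h2
        subst h2
        exact Finset.not_nonempty_empty hR
      | cons d w =>
        refine ⟨d, by rw [← h2]; simp, w, ⟨(List.nodup_cons.mp h1).2, ?_⟩, rfl⟩
        rw [← h2, List.toFinset_cons, Finset.erase_insert]
        simpa using (List.nodup_cons.mp h1).1
    · rintro ⟨d, hd, w', ⟨h1, h2⟩, rfl⟩
      refine ⟨List.nodup_cons.mpr ⟨?_, h1⟩, ?_⟩
      · intro h
        have : d ∈ R.erase d := by rw [← h2]; simpa using h
        simp at this
      · rw [List.toFinset_cons, h2, Finset.insert_erase hd]
  rw [h1, Finset.sum_biUnion]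
  · apply Finset.sum_congr rfl
    intro d _
    rw [Finset.sum_image]
    intro a _ b _ hab
    exact (List.cons.inj hab).2
  · intro a _ b _ hab
    simp only [Function.onFun]
    rw [Finset.disjoint_left]
    intro w hw hw'
    simp only [Finset.mem_image] at hw hw'
    obtain ⟨u, _, rfl⟩ := hw
    obtain ⟨v, _, hv⟩ := hw'
    exact hab (List.cons.inj hv).1.symm

open Classical in
theorem sum_good (x : ℕ → K) (r : ℕ) : ∀ (R : Finset ℕ) (a p : ℕ), R.card = r → a ∉ R →
    ∑ w ∈ arr R, (if Good a w then wt x p a w else 0) = W x r (#{e ∈ R | e < a}) p := by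
  induction r with
  | zero =>
    intro R a p hR _
    rw [Finset.card_eq_zero] at hR
    subst hR
    rw [arr_empty]
    simp [Good, wt, W]
  | succ r ih =>
    intro R a p hR ha
    have hne : R.Nonempty := by rw [← Finset.card_pos]; omega
    rw [sum_arr R hne]
    set s := #{e ∈ R | e < a} with hs
    set F : ℕ → K := fun j => if s ≤ j then W x r j (p+1) else
      if j = 0 then x p * W x r 0 (p+1) else 0 with hF
    have key : ∀ d ∈ R, ∑ w ∈ arr (R.erase d), (if Good a (d :: w) then wt x p a (d :: w) else 0)
        = F (#{e ∈ R | e < d}) := by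
      intro d hd
      have hda : d ≠ a := fun h => ha (h ▸ hd)
      have hrk : #{e ∈ R.erase d | e < d} = #{e ∈ R | e < d} := by
        congr 1
        ext e
        simp only [Finset.mem_filter, Finset.mem_erase]
        constructor
        · rintro ⟨⟨_, h⟩, h'⟩; exact ⟨h, h'⟩
        · rintro ⟨h, h'⟩; exact ⟨⟨h'.ne, h⟩, h'⟩
      have hih := ih (R.erase d) d (p+1) (by rw [Finset.card_erase_of_mem hd, hR]; rfl) (by simp)
      rw [hrk] at hih
      have hstep : ∀ w ∈ arr (R.erase d), (if Good a (d :: w) then wt x p a (d :: w) else 0)
          = (if (a < d ∨ ∀ e ∈ R.erase d, d < e) then (if d < a then x p else 1) else 0)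
            * (if Good d w then wt x (p+1) d w else 0) := by
        intro w hw
        have hw2 := (mem_arr.mp hw).2
        have hiff : (∀ e ∈ w, d < e) ↔ (∀ e ∈ R.erase d, d < e) := by
          rw [← hw2]; simp
        simp only [Good, wt, hiff]
        by_cases h1 : (a < d ∨ ∀ e ∈ R.erase d, d < e) <;> by_cases h2 : Good d w <;>
          simp [h1, h2]
      rw [Finset.sum_congr rfl hstep, ← Finset.mul_sum, hih]
      simp only [hF]
      by_cases had : a < d
      · have h3 : s ≤ #{e ∈ R | e < d} := by
          rw [hs]
          apply Finset.card_le_card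
          intro e he
          simp only [Finset.mem_filter] at he ⊢
          exact ⟨he.1, he.2.trans had⟩
        rw [if_pos h3]
        simp [had, not_lt.mpr had.le]
      · have had' : d < a := by omega
        have h3 : #{e ∈ R | e < d} < s := by
          rw [hs]
          apply Finset.card_lt_card
          rw [Finset.ssubset_iff_of_subset]
          · exact ⟨d, by simp [hd, had'], by simp⟩
          · intro e he
            simp only [Finset.mem_filter] at he ⊢
            exact ⟨he.1, he.2.trans had'⟩
        rw [if_neg (not_le.mpr h3)]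
        have h4 : (a < d ∨ ∀ e ∈ R.erase d, d < e) ↔ #{e ∈ R | e < d} = 0 := by
          rw [Finset.card_eq_zero, Finset.filter_eq_empty_iff]
          constructor
          · rintro (h | h)
            · exact absurd h had
            · intro e he hlt
              have := h e (Finset.mem_erase.mpr ⟨hlt.ne, he⟩)
              omega
          · intro h
            right
            intro e he
            have h5 := h (Finset.mem_of_mem_erase he)
            have h6 := Finset.ne_of_mem_erase he
            omega
        by_cases h5 : #{e ∈ R | e < d} = 0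
        · rw [if_pos (h4.mpr h5), if_pos had', if_pos h5, h5]
        · rw [if_neg (fun h => h5 (h4.mp h)), if_neg h5, zero_mul]
    rw [Finset.sum_congr rfl key, rank_sum, hR]
    have hsr : s ≤ r + 1 := by
      rw [hs, ← hR]; exact Finset.card_filter_le _ _
    rw [W, Finset.range_eq_Ico, ← Finset.sum_Ico_consecutive F (Nat.zero_le s) hsr, add_comm]
    congr 1
    · apply Finset.sum_congr rfl
      intro j hj
      simp only [hF]
      rw [if_pos (Finset.mem_Ico.mp hj).1]
    · by_cases h1 : 1 ≤ s
      · rw [if_pos h1, Finset.sum_eq_single 0]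
        · simp only [hF]
          rw [if_neg (by omega)]
          simp
        · intro j hj hj0
          simp only [hF]
          rw [if_neg (by have := (Finset.mem_Ico.mp hj).2; omega), if_neg hj0]
        · intro h
          exfalso; apply h; rw [Finset.mem_Ico]; omega
      · have : s = 0 := by omega
        rw [if_neg h1, this]
        simp

end Pool.Agent.H140.RS
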