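import Pool.Agent.H140.RS.Char

open Finset

namespace Pool.Agent.H140.RS

/-- `Im (conj u * v)` -/
def br (u v : ℂ) : ℝ := u.re * v.im - u.im * v.re

theorem br_add_left (u u' v : ℂ) : br (u + u') v = br u v + br u' v := by
  simp [br]; ring
theorem br_add_right (u v v' : ℂ) : br u (v + v') = br u v + br u v' := by
  simp [br]; ring
theorem br_self (u : ℂ) : br u u = 0 := by simp [br]; ring
theorem br_smul_left (c : ℝ) (u v : ℂ) : br ((c : ℂ) * u) v = c * br u v := by
  simp [br]; ring
theorem br_smul_right (c : ℝ) (u v : ℂ) : br u ((c : ℂ) * v) = c * br u v := by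
  simp [br]; ring
theorem br_mul_mul (z u v : ℂ) : br (z * u) (z * v) = (z.re ^ 2 + z.im ^ 2) * br u v := by
  simp [br]; ring
theorem br_mul_self (z u : ℂ) : br u (z * u) = (u.re ^ 2 + u.im ^ 2) * z.im := by
  simp [br]; ring
theorem br_sum_left {ι : Type*} (s : Finset ι) (f : ι → ℂ) (v : ℂ) :
    br (∑ i ∈ s, f i) v = ∑ i ∈ s, br (f i) v := by
  simp [br, Finset.sum_mul, Finset.sum_sub_distrib]
theorem br_sum_right {ι : Type*} (s : Finset ι) (f : ι → ℂ) (v : ℂ) :
    br v (∑ i ∈ s, f i) = ∑ i ∈ s, br v (f i) := by
  simp [br, Finset.mul_sum, Finset.sum_sub_distrib]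

theorem stab (lam : ℕ → ℝ) (hl : ∀ k, 0 < lam k) (z : ℂ) (hz : 0 < z.im) (r : ℕ) : ∀ p : ℕ,
    (∀ i j, i ≤ j → j ≤ r → 0 ≤ br (W (fun k => (lam k : ℂ) * z) r i p)
      (W (fun k => (lam k : ℂ) * z) r j p)) ∧
    (∀ i j, i ≤ j → j ≤ r → 0 ≤ br (W (fun k => (lam k : ℂ) * z) r j p)
      (z * W (fun k => (lam k : ℂ) * z) r i p)) ∧
    W (fun k => (lam k : ℂ) * z) r 0 p ≠ 0 := by
  induction r with
  | zero =>
    intro p
    refine ⟨?_, ?_, ?_⟩
    · intro i j _ _
      simp [W, br]
    · intro i j _ _
      simp [W, br, hz.le]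
    · simp [W]
  | succ r ih =>
    intro p
    obtain ⟨I1, I2, I3⟩ := ih (p+1)
    set w : ℕ → ℂ := fun i => W (fun k => (lam k : ℂ) * z) r i (p+1) with hw
    have I1' : ∀ i j, i ≤ j → j ≤ r → 0 ≤ br (w i) (w j) := I1
    have I2' : ∀ i j, i ≤ j → j ≤ r → 0 ≤ br (w j) (z * w i) := I2
    have I3' : w 0 ≠ 0 := I3
    set T : ℕ → ℂ := fun s => ∑ i ∈ Ico s (r+1), w i with hT
    have hW : ∀ s, W (fun k => (lam k : ℂ) * z) (r+1) s p = T s +
        (if 1 ≤ s then (lam p : ℂ) * (z * w 0) else 0) := by
      intro s
      rw [W]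
      simp only [hT, hw]
      congr 1
      split_ifs
      · ring
      · rfl
    have hla := hl p
    -- norms
    have hzz : 0 ≤ z.re ^ 2 + z.im ^ 2 := by positivity
    -- splitting
    have hsplit : ∀ i j, i ≤ j → j ≤ r + 1 → T i = ∑ k ∈ Ico i j, w k + T j := by
      intro i j hij hj
      simp only [hT]
      rw [Finset.sum_Ico_consecutive w hij hj]
    have ha : ∀ i j, i ≤ j → j ≤ r + 1 → 0 ≤ br (∑ k ∈ Ico i j, w k) (T j) := by
      intro i j hij hj
      rw [br_sum_left]
      apply Finset.sum_nonneg
      intro k hk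
      simp only [hT]
      rw [br_sum_right]
      apply Finset.sum_nonneg
      intro l hl'
      rw [Finset.mem_Ico] at hk hl'
      exact I1' k l (by omega) (by omega)
    have hb : ∀ i j, i ≤ j → j ≤ r + 1 → 0 ≤ br (T j) (z * ∑ k ∈ Ico i j, w k) := by
      intro i j hij hj
      rw [Finset.mul_sum, br_sum_right]
      apply Finset.sum_nonneg
      intro k hk
      simp only [hT]
      rw [br_sum_left]
      apply Finset.sum_nonneg
      intro l hl'
      rw [Finset.mem_Ico] at hk hl'
      exact I2' k l (by omega) (by omega)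
    have hc : ∀ i j, j ≤ r + 1 → 0 ≤ br (∑ k ∈ Ico i j, w k) (z * w 0) := by
      intro i j hj
      rw [br_sum_left]
      apply Finset.sum_nonneg
      intro k hk
      rw [Finset.mem_Ico] at hk
      exact I2' 0 k (by omega) (by omega)
    have hd : ∀ i j, j ≤ r + 1 → 0 ≤ br (w 0) (∑ k ∈ Ico i j, w k) := by
      intro i j hj
      rw [br_sum_right]
      apply Finset.sum_nonneg
      intro k hk
      rw [Finset.mem_Ico] at hk
      exact I1' 0 k (by omega) (by omega)
    refine ⟨?_, ?_, ?_⟩
    · intro i j hij hj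
      rw [hW, hW]
      rcases Nat.eq_zero_or_pos j with rfl | hj0
      · have : i = 0 := by omega
        subst this
        rw [br_self]
      · rw [if_pos (show 1 ≤ j from hj0), hsplit i j hij hj]
        by_cases hi : 1 ≤ i
        · rw [if_pos hi]
          have e : br (∑ k ∈ Ico i j, w k + T j + (lam p : ℂ) * (z * w 0))
              (T j + (lam p : ℂ) * (z * w 0)) = br (∑ k ∈ Ico i j, w k) (T j)
              + lam p * br (∑ k ∈ Ico i j, w k) (z * w 0) := by
            rw [add_assoc, br_add_left, br_self, add_zero, br_add_right, br_smul_right]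
          rw [e]
          have h1 := ha i j hij hj
          have h2 := mul_nonneg hla.le (hc i j hj)
          linarith
        · have hi0 : i = 0 := by omega
          subst hi0
          rw [if_neg hi, add_zero]
          have e : br (∑ k ∈ Ico 0 j, w k + T j)
              (T j + (lam p : ℂ) * (z * w 0)) = br (∑ k ∈ Ico 0 j, w k) (T j)
              + lam p * br (∑ k ∈ Ico 0 j, w k) (z * w 0) + lam p * br (T j) (z * w 0) := by
            rw [br_add_left, br_add_right, br_add_right, br_self, br_smul_right, br_smul_right]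
            ring
          rw [e]
          have h1 := ha 0 j hij hj
          have h2 := mul_nonneg hla.le (hc 0 j hj)
          have h3 := mul_nonneg hla.le (hc j (r+1) le_rfl)
          linarith
    · intro i j hij hj
      rw [hW, hW]
      rcases Nat.eq_zero_or_pos j with rfl | hj0
      · have : i = 0 := by omega
        subst this
        rw [if_neg (by omega), add_zero, br_mul_self]
        positivity
      · rw [if_pos (show 1 ≤ j from hj0), hsplit i j hij hj]
        by_cases hi : 1 ≤ i
        · rw [if_pos hi]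
          have e : br (T j + (lam p : ℂ) * (z * w 0))
              (z * (∑ k ∈ Ico i j, w k + T j + (lam p : ℂ) * (z * w 0))) =
              br (T j) (z * ∑ k ∈ Ico i j, w k)
              + lam p * ((z.re ^ 2 + z.im ^ 2) * br (w 0) (∑ k ∈ Ico i j, w k))
              + ((T j + (lam p : ℂ) * (z * w 0)).re ^ 2
                + (T j + (lam p : ℂ) * (z * w 0)).im ^ 2) * z.im := by
            rw [add_assoc (∑ k ∈ Ico i j, w k), mul_add, br_add_right, br_mul_self, br_add_left,
              br_smul_left, br_mul_mul]
          rw [e]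
          have h1 := hb i j hij hj
          have h2 := mul_nonneg hla.le (mul_nonneg hzz (hd i j hj))
          have h3 : 0 ≤ ((T j + (lam p : ℂ) * (z * w 0)).re ^ 2
                + (T j + (lam p : ℂ) * (z * w 0)).im ^ 2) * z.im := by positivity
          linarith
        · have hi0 : i = 0 := by omega
          subst hi0
          rw [if_neg hi, add_zero]
          have e : br (T j + (lam p : ℂ) * (z * w 0))
              (z * (∑ k ∈ Ico 0 j, w k + T j)) =
              br (T j) (z * ∑ k ∈ Ico 0 j, w k)
              + ((T j).re ^ 2 + (T j).im ^ 2) * z.im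
              + lam p * ((z.re ^ 2 + z.im ^ 2) * br (w 0) (∑ k ∈ Ico 0 j, w k))
              + lam p * ((z.re ^ 2 + z.im ^ 2) * br (w 0) (T j)) := by
            rw [mul_add, br_add_right, br_add_left, br_add_left, br_mul_self,
              br_smul_left, br_mul_mul, br_smul_left, br_mul_mul]
            ring
          rw [e]
          have h1 := hb 0 j hij hj
          have h2 := mul_nonneg hla.le (mul_nonneg hzz (hd 0 j hj))
          have h4 := mul_nonneg hla.le (mul_nonneg hzz (hd j (r+1) le_rfl))
          have h3 : 0 ≤ ((T j).re ^ 2 + (T j).im ^ 2) * z.im := by positivity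
          linarith
    · rw [hW, if_neg (by omega), add_zero]
      intro h0
      have h1 : br (T 0) (z * w 0) = 0 := by rw [h0]; simp [br]
      have h2 : T 0 = w 0 + ∑ k ∈ Ico 1 (r+1), w k := by
        simp only [hT]
        rw [Finset.sum_eq_sum_Ico_succ_bot (by omega)]
      rw [h2, br_add_left, br_mul_self] at h1
      have h3 := hc 1 (r+1) le_rfl
      have h4 : 0 < (w 0).re ^ 2 + (w 0).im ^ 2 := by
        rcases lt_or_eq_of_le (show 0 ≤ (w 0).re ^ 2 + (w 0).im ^ 2 by positivity) with h | h
        · exact h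
        · exfalso
          apply I3'
          have h5 : (w 0).re = 0 := by nlinarith [sq_nonneg (w 0).re, sq_nonneg (w 0).im]
          have h6 : (w 0).im = 0 := by nlinarith [sq_nonneg (w 0).re, sq_nonneg (w 0).im]
          exact Complex.ext h5 h6
      have h5 := mul_pos h4 hz
      linarith

end Pool.Agent.H140.RS
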